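import Pool.Agent.H4.Atiyah.AlgRank

/-!
# Project S13: rings with a rank function, the ultraproduct of the matrix rings over finite quotients

`RkFun E` = the properties of the rank function of the ring `E` which are used; the instance is the algebraic ultraproduct
`UAlg F X` (H4/Atiyah) of the rings `Matrix (X k) (X k) F`; the transposition `stU`; the diagonal projections `pU S`.
-/

set_option autoImplicit false
set_option linter.unusedSectionVars false

open Filter Topology

namespace Pool.Agent.S13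

open Pool.Agent.H4.Atiyah

/-- a rank function -/
structure RkFun (E : Type) [Ring E] where
  /-- the rank -/
  rk : E → ℝ
  nonneg : ∀ x, 0 ≤ rk x
  add_le : ∀ x y, rk (x + y) ≤ rk x + rk y
  mul_left : ∀ x y, rk (x * y) ≤ rk x
  mul_right : ∀ x y, rk (x * y) ≤ rk y
  neg : ∀ x, rk (-x) = rk x
  zero : rk 0 = 0
  one : rk 1 = 1
  eq_zero : ∀ x, rk x = 0 → x = 0
  isUnit : ∀ x, rk x = 1 → IsUnit x

namespace RkFun

section

variable {E : Type} [Ring E] (ρ : RkFun E)

theorem sub_le (x y : E) : ρ.rk (x - y) ≤ ρ.rk x + ρ.rk y := by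
  rw [sub_eq_add_neg, ← ρ.neg y]
  exact ρ.add_le _ _

theorem sum_le {ι : Type*} (s : Finset ι) (f : ι → E) : ρ.rk (∑ i ∈ s, f i) ≤ ∑ i ∈ s, ρ.rk (f i) := by
  classical
  induction s using Finset.induction_on with
  | empty => rw [Finset.sum_empty, Finset.sum_empty, ρ.zero]
  | insert i s hi ih =>
    rw [Finset.sum_insert hi, Finset.sum_insert hi]
    exact (ρ.add_le _ _).trans (by linarith)

theorem sub_comm (x y : E) : ρ.rk (x - y) = ρ.rk (y - x) := by
  rw [← ρ.neg, neg_sub]

/-- the triangle inequality -/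
theorem sub_le_sub (x y z : E) : ρ.rk (x - z) ≤ ρ.rk (x - y) + ρ.rk (y - z) := by
  have h := ρ.add_le (x - y) (y - z)
  rwa [sub_add_sub_cancel] at h

theorem le_one (x : E) : ρ.rk x ≤ 1 := by
  rw [← ρ.one]
  have h := ρ.mul_left 1 x
  rwa [one_mul] at h

theorem eq_zero_of_le {x : E} (h : ∀ ε : ℝ, 0 < ε → ρ.rk x ≤ ε) : x = 0 :=
  ρ.eq_zero x (le_antisymm (le_of_forall_pos_le_add fun ε hε => by rw [zero_add]; exact h ε hε) (ρ.nonneg x))

theorem eq_of_le {x y : E} (h : ∀ ε : ℝ, 0 < ε → ρ.rk (x - y) ≤ ε) : x = y :=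
  sub_eq_zero.1 (ρ.eq_zero_of_le h)

/-- approximate one-sided inverses -/
theorem isUnit_of_right {x : E} (h : ∀ ε : ℝ, 0 < ε → ∃ y, ρ.rk (x * y - 1) ≤ ε) : IsUnit x := by
  refine ρ.isUnit x (le_antisymm (ρ.le_one x) (le_of_forall_pos_le_add fun ε hε => ?_))
  obtain ⟨y, hy⟩ := h ε hε
  have h1 := ρ.sub_le (x * y) (x * y - 1)
  rw [sub_sub_cancel, ρ.one] at h1
  have h2 := ρ.mul_left x y
  linarith

theorem isUnit_of_left {x : E} (h : ∀ ε : ℝ, 0 < ε → ∃ y, ρ.rk (y * x - 1) ≤ ε) : IsUnit x := by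
  refine ρ.isUnit x (le_antisymm (ρ.le_one x) (le_of_forall_pos_le_add fun ε hε => ?_))
  obtain ⟨y, hy⟩ := h ε hε
  have h1 := ρ.sub_le (y * x) (y * x - 1)
  rw [sub_sub_cancel, ρ.one] at h1
  have h2 := ρ.mul_right y x
  linarith

include ρ in
theorem nontrivial : Nontrivial E := ⟨0, 1, fun h => by
  have h1 := ρ.one
  rw [← h, ρ.zero] at h1
  exact zero_ne_one h1⟩

end

end RkFun

section

variable (F : Type) [Field F] (X : ℕ → Type) [∀ k, Fintype (X k)] [∀ k, DecidableEq (X k)]
  [∀ k, Nonempty (X k)]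

/-- the rank of an element of the ultraproduct -/
noncomputable def rkU (x : UAlg F X) : ℝ := (AlgRank.algRank F X).rk (Matrix.of fun (_ _ : Unit) => x)

variable {F X}

theorem rank_flat_unit (a : Seq F X) (k : ℕ) :
    (flat (Matrix.of fun (_ _ : Unit) => a) k).rank = (a k).rank := by
  have : flat (Matrix.of fun (_ _ : Unit) => a) k =
      (a k).submatrix (Equiv.punitProd (X k)) (Equiv.punitProd (X k)) := rfl
  rw [this, Matrix.rank_submatrix]

/-- the normalized ranks converge -/
theorem tendsto_rkU (a : Seq F X) :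
    Tendsto (fun k => ((a k).rank : ℝ) / Fintype.card (X k)) (om : Filter ℕ) (𝓝 (rkU F X (UAlg.mk F X a))) := by
  have h1 : rkU F X (UAlg.mk F X a) = AlgRank.rkS (Matrix.of fun (_ _ : Unit) => a) :=
    AlgRank.algRank_rk (Matrix.of fun (_ _ : Unit) => a)
  rw [h1]
  refine (AlgRank.tendsto_rkS (Matrix.of fun (_ _ : Unit) => a)).congr fun k => ?_
  rw [rank_flat_unit]

variable (F X)

/-- **The rank function of the ultraproduct** -/
noncomputable def RkU : RkFun (UAlg F X) where
  rk := rkU F X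
  nonneg := by
    intro x
    obtain ⟨a, rfl⟩ := UAlg.mk_surjective x
    exact ge_of_tendsto (tendsto_rkU a) (Eventually.of_forall fun k => by positivity)
  add_le := by
    intro x y
    obtain ⟨a, rfl⟩ := UAlg.mk_surjective x
    obtain ⟨b, rfl⟩ := UAlg.mk_surjective y
    rw [← map_add]
    refine le_of_tendsto_of_tendsto (tendsto_rkU (a + b)) ((tendsto_rkU a).add (tendsto_rkU b))
      (Eventually.of_forall fun k => ?_)
    change _ ≤ ((a k).rank : ℝ) / Fintype.card (X k) + ((b k).rank : ℝ) / Fintype.card (X k)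
    rw [← add_div]
    refine div_le_div_of_nonneg_right ?_ (Nat.cast_nonneg _)
    have := rank_add_le' (a k) (b k)
    exact_mod_cast this
  mul_left := by
    intro x y
    obtain ⟨a, rfl⟩ := UAlg.mk_surjective x
    obtain ⟨b, rfl⟩ := UAlg.mk_surjective y
    rw [← map_mul]
    refine le_of_tendsto_of_tendsto (tendsto_rkU (a * b)) (tendsto_rkU a) (Eventually.of_forall fun k => ?_)
    refine div_le_div_of_nonneg_right ?_ (Nat.cast_nonneg _)
    exact_mod_cast Matrix.rank_mul_le_left (a k) (b k)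
  mul_right := by
    intro x y
    obtain ⟨a, rfl⟩ := UAlg.mk_surjective x
    obtain ⟨b, rfl⟩ := UAlg.mk_surjective y
    rw [← map_mul]
    refine le_of_tendsto_of_tendsto (tendsto_rkU (a * b)) (tendsto_rkU b) (Eventually.of_forall fun k => ?_)
    refine div_le_div_of_nonneg_right ?_ (Nat.cast_nonneg _)
    exact_mod_cast Matrix.rank_mul_le_right (a k) (b k)
  neg := by
    intro x
    obtain ⟨a, rfl⟩ := UAlg.mk_surjective x
    rw [← map_neg]
    refine tendsto_nhds_unique (tendsto_rkU (-a)) ((tendsto_rkU a).congr fun k => ?_)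
    rw [Pi.neg_apply, AlgRank.rank_neg']
  zero := by
    rw [← map_zero (UAlg.mk F X)]
    refine tendsto_nhds_unique (tendsto_rkU (0 : Seq F X)) (tendsto_const_nhds.congr fun k => ?_)
    rw [Pi.zero_apply, Matrix.rank_zero, Nat.cast_zero, zero_div]
  one := by
    rw [← map_one (UAlg.mk F X)]
    refine tendsto_nhds_unique (tendsto_rkU (1 : Seq F X)) (tendsto_const_nhds.congr fun k => ?_)
    rw [Pi.one_apply, Matrix.rank_one, div_self (AlgRank.card_pos k).ne']
  eq_zero := fun x hx => AlgRank.algRank_regular.eq_zero x hx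
  isUnit := by
    intro x hx
    have h1 := AlgRank.algRank_regular.isUnit (Matrix.of fun (_ _ : Unit) => x) (by
      rw [Fintype.card_unit, Nat.cast_one]
      exact hx)
    obtain ⟨⟨u, v, huv, hvu⟩, hu⟩ := h1
    subst hu
    refine ⟨⟨x, v () (), ?_, ?_⟩, rfl⟩
    · have h2 := congrFun (congrFun huv ()) ()
      rw [Matrix.mul_apply, Finset.univ_unique, Finset.sum_singleton, Matrix.one_apply_eq] at h2
      exact h2
    · have h2 := congrFun (congrFun hvu ()) ()
      rw [Matrix.mul_apply, Finset.univ_unique, Finset.sum_singleton, Matrix.one_apply_eq] at h2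
      exact h2

end

end Pool.Agent.S13
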