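import Pool.Agent.S13.RK
import Pool.Agent.S11.EmbA

/-!
# Project S13: the ultraproduct of the group algebras of finite quotients

`ιU : F[H] → UAlg F P` (`P k` finite quotients of `H`), `gU h` = the image of `h`, `stU` = transposition, `pU S` = diagonal projections,
`lv t τ` = the projections on the level sets of functions `t k : P k → T`.  `rank_ge`: a matrix over `F[H]` with `r` rows which are
independent over a division ring in the ultraproduct has a large rank over `F[P k]` for almost all `k`.
-/

set_option autoImplicit false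
set_option linter.unusedSectionVars false

open Filter Topology

namespace Pool.Agent.S13

open Pool.Agent.H4.Atiyah

section star

variable (F : Type) [Field F] (X : ℕ → Type) [∀ k, Fintype (X k)] [∀ k, DecidableEq (X k)]
  [∀ k, Nonempty (X k)]

/-- the transposition, as a homomorphism to the opposite ring -/
noncomputable def stS : Seq F X →+* (UAlg F X)ᵐᵒᵖ where
  toFun a := MulOpposite.op (UAlg.mk F X fun k => (a k).transpose)
  map_one' := by
    rw [← MulOpposite.op_one, ← map_one (UAlg.mk F X)]
    congr 2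
    funext k
    exact Matrix.transpose_one
  map_mul' a b := by
    rw [← MulOpposite.op_mul, ← map_mul]
    congr 2
    funext k
    exact Matrix.transpose_mul (a k) (b k)
  map_zero' := by
    rw [← MulOpposite.op_zero, ← map_zero (UAlg.mk F X)]
    congr 2
  map_add' a b := by
    rw [← MulOpposite.op_add, ← map_add]
    congr 2

/-- the transposition -/
noncomputable def stU (x : UAlg F X) : UAlg F X :=
  (UAlg.lift (stS F X) (by
    intro a ha
    change MulOpposite.op (UAlg.mk F X fun k => (a k).transpose) = 0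
    rw [← MulOpposite.op_zero]
    congr 1
    rw [UAlg.mk_eq_zero]
    intro ε hε
    filter_upwards [ha ε hε] with k hk
    rw [Matrix.rank_transpose]
    exact hk) x).unop

variable {F X}

theorem stU_mk (a : Seq F X) : stU F X (UAlg.mk F X a) = UAlg.mk F X fun k => (a k).transpose := rfl

theorem stU_add (x y : UAlg F X) : stU F X (x + y) = stU F X x + stU F X y := by
  unfold stU
  rw [map_add, MulOpposite.unop_add]

theorem stU_mul (x y : UAlg F X) : stU F X (x * y) = stU F X y * stU F X x := by
  unfold stU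
  rw [map_mul, MulOpposite.unop_mul]

theorem stU_one : stU F X 1 = 1 := by
  unfold stU
  rw [map_one, MulOpposite.unop_one]

theorem stU_zero : stU F X 0 = 0 := by
  unfold stU
  rw [map_zero, MulOpposite.unop_zero]

theorem stU_stU (x : UAlg F X) : stU F X (stU F X x) = x := by
  obtain ⟨a, rfl⟩ := UAlg.mk_surjective x
  rw [stU_mk, stU_mk]
  rfl

theorem rk_stU (x : UAlg F X) : (RkU F X).rk (stU F X x) = (RkU F X).rk x := by
  obtain ⟨a, rfl⟩ := UAlg.mk_surjective x
  rw [stU_mk]
  refine tendsto_nhds_unique (tendsto_rkU _) ((tendsto_rkU a).congr fun k => ?_)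
  rw [Matrix.rank_transpose]

/-- equal almost everywhere -/
theorem mk_congr {a b : Seq F X} (h : ∀ᶠ k in (om : Filter ℕ), a k = b k) : UAlg.mk F X a = UAlg.mk F X b := by
  rw [UAlg.mk_eq_mk]
  intro ε hε
  filter_upwards [h] with k hk
  rw [Pi.sub_apply, hk, sub_self, Matrix.rank_zero, Nat.cast_zero]
  positivity

end star

section proj

variable (F : Type) [Field F] (X : ℕ → Type) [∀ k, Fintype (X k)] [∀ k, DecidableEq (X k)]
  [∀ k, Nonempty (X k)]

open Classical in
/-- the diagonal projection -/
noncomputable def pU (S : ∀ k, Set (X k)) : UAlg F X :=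
  UAlg.mk F X fun k => Matrix.diagonal fun x => if x ∈ S k then 1 else 0

variable {F X}

theorem pU_mul (S T : ∀ k, Set (X k)) : pU F X S * pU F X T = pU F X fun k => S k ∩ T k := by
  classical
  unfold pU
  rw [← map_mul]
  congr 1
  funext k
  rw [Pi.mul_apply, Matrix.diagonal_mul_diagonal]
  congr 1
  funext x
  by_cases h1 : x ∈ S k <;> by_cases h2 : x ∈ T k <;> simp [h1, h2]

theorem pU_congr {S T : ∀ k, Set (X k)} (h : ∀ᶠ k in (om : Filter ℕ), S k = T k) : pU F X S = pU F X T := by
  refine mk_congr ?_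
  filter_upwards [h] with k hk
  rw [hk]

theorem pU_empty : pU F X (fun _ => ∅) = 0 := by
  classical
  unfold pU
  rw [← map_zero (UAlg.mk F X)]
  congr 1
  funext k
  simp

theorem pU_univ : pU F X (fun _ => Set.univ) = 1 := by
  classical
  unfold pU
  rw [← map_one (UAlg.mk F X)]
  congr 1
  funext k
  simp

theorem stU_pU (S : ∀ k, Set (X k)) : stU F X (pU F X S) = pU F X S := by
  unfold pU
  rw [stU_mk]
  congr 1
  funext k
  exact Matrix.diagonal_transpose _

/-- the density bounds the rank -/
theorem rk_pU_le {S : ∀ k, Set (X k)} {ε : ℝ}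
    (h : ∀ᶠ k in (om : Filter ℕ), ((S k).ncard : ℝ) ≤ ε * Fintype.card (X k)) : (RkU F X).rk (pU F X S) ≤ ε := by
  classical
  refine le_of_tendsto (tendsto_rkU _) ?_
  filter_upwards [h] with k hk
  rw [div_le_iff₀ (AlgRank.card_pos k)]
  refine le_trans ?_ hk
  rw [Matrix.rank_diagonal]
  have h1 : Fintype.card {i // (if i ∈ S k then (1 : F) else 0) ≠ 0} = (S k).ncard := by
    rw [← Nat.card_eq_fintype_card, ← Nat.card_coe_set_eq]
    refine Nat.card_congr (Equiv.subtypeEquivRight fun i => ?_)
    by_cases hi : i ∈ S k <;> simp [hi]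
  rw [h1]

/-- the projections on the level sets -/
noncomputable def lv {T : Type} (t : ∀ k, X k → T) (τ : T) : UAlg F X := pU F X fun k => {x | t k x = τ}

theorem lv_mul_self {T : Type} (t : ∀ k, X k → T) (τ : T) : lv (F := F) t τ * lv t τ = lv t τ := by
  unfold lv
  rw [pU_mul]
  congr 1
  funext k
  exact Set.inter_self _

theorem lv_mul_ne {T : Type} (t : ∀ k, X k → T) {τ τ' : T} (h : τ ≠ τ') : lv (F := F) t τ * lv t τ' = 0 := by
  unfold lv
  rw [pU_mul, ← pU_empty]
  congr 1
  funext k
  ext x
  constructor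
  · rintro ⟨h1, h2⟩
    exact h (h1.symm.trans h2)
  · rintro ⟨⟩

theorem sum_lv {T : Type} [Fintype T] (t : ∀ k, X k → T) : ∑ τ, lv (F := F) t τ = 1 := by
  classical
  unfold lv pU
  rw [← map_sum, ← map_one (UAlg.mk F X)]
  congr 1
  funext k
  rw [Finset.sum_apply]
  ext x y
  rw [Matrix.sum_apply, Pi.one_apply]
  by_cases h : x = y
  · subst h
    simp [Matrix.diagonal_apply_eq, Matrix.one_apply_eq]
  · rw [Matrix.one_apply_ne h]
    exact Finset.sum_eq_zero fun τ _ => Matrix.diagonal_apply_ne _ h

theorem stU_lv {T : Type} (t : ∀ k, X k → T) (τ : T) : stU F X (lv t τ) = lv t τ := stU_pU _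

end proj

section grp

variable (F : Type) [Field F] {H : Type} [Group H] (P : ℕ → Type) [∀ k, Group (P k)] [∀ k, Fintype (P k)]
  [∀ k, DecidableEq (P k)] (π : ∀ k, H →* P k)

/-- the group algebra at the finite levels -/
noncomputable def ιS : MonoidAlgebra F H →+* Seq F P :=
  RingHom.pi fun k => ((reg F (P k)).toRingHom).comp (MonoidAlgebra.mapDomainRingHom F (π k))

/-- the group algebra in the ultraproduct -/
noncomputable def ιU : MonoidAlgebra F H →+* UAlg F P := (UAlg.mk F P).comp (ιS F P π)

/-- the group in the ultraproduct -/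
noncomputable def gU : H →* UAlg F P := (ιU F P π : MonoidAlgebra F H →* UAlg F P).comp (MonoidAlgebra.of F H)

variable {F P}

theorem ιU_single (h : H) : ιU F P π (MonoidAlgebra.single h 1) = gU F P π h := rfl

theorem ιS_single (h : H) (k : ℕ) : ιS F P π (MonoidAlgebra.single h 1) k =
    Matrix.of fun x y => if x * π k h = y then 1 else 0 := by
  change reg F (P k) (MonoidAlgebra.mapDomainRingHom F (π k) (MonoidAlgebra.single h 1)) = _
  rw [MonoidAlgebra.mapDomainRingHom_apply, MonoidAlgebra.mapDomain_single]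
  unfold reg
  rw [MonoidAlgebra.lift_single, one_smul]
  rfl

theorem gU_eq (h : H) : gU F P π h = UAlg.mk F P fun k => Matrix.of fun x y => if x * π k h = y then 1 else 0 := by
  change UAlg.mk F P (ιS F P π (MonoidAlgebra.single h 1)) = _
  congr 1
  funext k
  exact ιS_single π h k

theorem stU_gU (h : H) : stU F P (gU F P π h) = gU F P π h⁻¹ := by
  rw [gU_eq, gU_eq, stU_mk]
  congr 1
  funext k
  ext x y
  rw [Matrix.transpose_apply, Matrix.of_apply, Matrix.of_apply, map_inv]
  refine if_congr ?_ rfl rfl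
  constructor
  · intro h1
    rw [← h1, mul_inv_cancel_right]
  · intro h1
    rw [← h1, inv_mul_cancel_right]

theorem gU_mul_pU (h : H) (S : ∀ k, Set (P k)) :
    gU F P π h * pU F P S = (pU F P fun k => {x | x * π k h ∈ S k}) * gU F P π h := by
  classical
  rw [gU_eq]
  unfold pU
  rw [← map_mul, ← map_mul]
  congr 1
  funext k
  ext x y
  rw [Pi.mul_apply, Pi.mul_apply, Matrix.mul_diagonal, Matrix.diagonal_mul, Matrix.of_apply]
  by_cases h1 : x * π k h = y
  · subst h1
    by_cases h2 : x * π k h ∈ S k <;> simp [h2]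
  · simp [h1]

/-- equivariant level functions -/
theorem gU_mul_lv {T : Type} (t : ∀ k, P k → T) (h : H) (σ : Equiv.Perm T)
    (hσ : ∀ᶠ k in (om : Filter ℕ), ∀ x, t k (x * (π k h)⁻¹) = σ (t k x)) (τ : T) :
    gU F P π h * lv t τ = lv t (σ τ) * gU F P π h := by
  unfold lv
  rw [gU_mul_pU]
  congr 1
  refine pU_congr ?_
  filter_upwards [hσ] with k hk
  ext x
  change t k (x * π k h) = τ ↔ t k x = σ τ
  have h1 := hk (x * π k h)
  rw [mul_inv_cancel_right] at h1
  rw [h1]
  exact σ.injective.eq_iff.symm

/-- flattening = the operator of H4 -/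
theorem flat_ιS {m n : Type} (A : Matrix m n (MonoidAlgebra F H)) (k : ℕ) :
    flat (A.map (ιS F P π)) k = op (A.map (MonoidAlgebra.mapDomainRingHom F (π k))) := by
  ext x y
  change reg F (P k) (MonoidAlgebra.mapDomainRingHom F (π k) (A x.1 y.1)) x.2 y.2 = _
  rw [reg_apply]
  rfl

/-- **Growth** -/
theorem rank_ge {D : Type} [DivisionRing D] (κ : D →+* UAlg F P) (ι : MonoidAlgebra F H →+* D)
    (hι : ∀ a, κ (ι a) = ιU F P π a) {a c r : ℕ} (A : Matrix (Fin a) (Fin c) (MonoidAlgebra F H))
    (rows : Fin r → Fin a) (hind : ∀ v : Fin r → D, Matrix.vecMul v ((A.submatrix rows id).map ι) = 0 → v = 0)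
    {ε : ℝ} (hε : 0 < ε) : ∀ᶠ k in (om : Filter ℕ), ((r : ℝ) - ε) * Fintype.card (P k) ≤
      ((op (A.map (MonoidAlgebra.mapDomainRingHom F (π k)))).rank : ℝ) := by
  obtain ⟨B, hB⟩ := Pool.Agent.S11.exists_right_inverse_of_inj ((A.submatrix rows id).map ι) hind
  -- over the ultraproduct
  have h1 : ((A.submatrix rows id).map (ιS F P π)).map (UAlg.mk F P) * B.map κ = 1 := by
    have h2 : ((A.submatrix rows id).map (ιS F P π)).map (UAlg.mk F P) = ((A.submatrix rows id).map ι).map κ := by
      ext i j
      simp only [Matrix.map_apply]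
      exact (hι _).symm
    rw [h2]
    have h3 : (((A.submatrix rows id).map ι) * B).map κ = ((A.submatrix rows id).map ι).map κ * B.map κ :=
      Matrix.map_mul
    rw [← h3, hB]
    exact Matrix.map_one _ (map_zero _) (map_one _)
  have h2 : (r : ℝ) ≤ AlgRank.rkS ((A.submatrix rows id).map (ιS F P π)) := by
    rw [← AlgRank.algRank_rk]
    have h3 := (AlgRank.algRank F P).mul_left (((A.submatrix rows id).map (ιS F P π)).map (UAlg.mk F P)) (B.map κ)
    rw [h1, (AlgRank.algRank F P).one, Fintype.card_fin] at h3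
    exact h3
  have h3 := (AlgRank.tendsto_rkS ((A.submatrix rows id).map (ιS F P π))).eventually
    (lt_mem_nhds (show (r : ℝ) - ε < AlgRank.rkS ((A.submatrix rows id).map (ιS F P π)) by linarith))
  filter_upwards [h3] with k hk
  rw [lt_div_iff₀ (AlgRank.card_pos k)] at hk
  refine hk.le.trans ?_
  have h4 : (flat ((A.submatrix rows id).map (ιS F P π)) k).rank ≤ (flat (A.map (ιS F P π)) k).rank := by
    have h5 : flat ((A.submatrix rows id).map (ιS F P π)) k =
        (flat (A.map (ιS F P π)) k).submatrix (fun x : Fin r × P k => (rows x.1, x.2)) (Equiv.refl _) := rfl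
    rw [h5]
    exact Matrix.rank_submatrix_le _ _ _
  rw [flat_ιS (m := Fin a)] at h4
  exact_mod_cast h4

end grp

end Pool.Agent.S13
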