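import Pool.Agent.H58.MN.Alg
import Pool.Agent.S11.Defs

/-!
# Project S13: one step

`Stp A J Q`: a group `J` in the units of the ring `A`, a division ring `E ⊆ A` which is normalized by `J` and contains the
kernel of `p : J →* Q`.  `cl q = E u_h`, `p h = q`.
-/

set_option autoImplicit false
set_option linter.unusedSectionVars false

namespace Pool.Agent.S13

/-- The data of one step. -/
structure Stp (A : Type) [Ring A] (J Q : Type) [Group J] [Group Q] where
  /-- the group elements -/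
  u : J →* A
  /-- the projection -/
  p : J →* Q
  surj : Function.Surjective p
  /-- the division ring of the kernel -/
  E : Subring A
  inv : ∀ e ∈ E, e ≠ 0 → ∃ e' ∈ E, e * e' = 1 ∧ e' * e = 1
  u_mem : ∀ n, p n = 1 → u n ∈ E
  conj : ∀ h, ∀ e ∈ E, u h * e * u h⁻¹ ∈ E

namespace Stp

variable {A : Type} [Ring A] {J Q : Type} [Group J] [Group Q] (S : Stp A J Q)

theorem u_inv (h : J) : S.u h * S.u h⁻¹ = 1 := by rw [← map_mul, mul_inv_cancel, map_one]

theorem inv_u (h : J) : S.u h⁻¹ * S.u h = 1 := by rw [← map_mul, inv_mul_cancel, map_one]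

theorem conj' (h : J) {e : A} (he : e ∈ S.E) : S.u h⁻¹ * e * S.u h ∈ S.E := by
  have h1 := S.conj h⁻¹ e he
  rwa [inv_inv] at h1

/-- the elements of degree `q` -/
def cl (q : Q) : AddSubgroup A where
  carrier := {a | ∀ h, S.p h = q → a * S.u h⁻¹ ∈ S.E}
  zero_mem' := fun h _ => by rw [zero_mul]; exact S.E.zero_mem
  add_mem' := fun {a b} ha hb h hh => by rw [add_mul]; exact S.E.add_mem (ha h hh) (hb h hh)
  neg_mem' := fun {a} ha h hh => by rw [neg_mul]; exact S.E.neg_mem (ha h hh)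

theorem mem_cl {q : Q} {a : A} {h : J} (hh : S.p h = q) : a ∈ S.cl q ↔ a * S.u h⁻¹ ∈ S.E := by
  constructor
  · intro ha
    exact ha h hh
  · intro ha k hk
    have h1 : a * S.u k⁻¹ = a * S.u h⁻¹ * S.u (h * k⁻¹) := by
      rw [mul_assoc, ← map_mul, inv_mul_cancel_left]
    rw [h1]
    refine S.E.mul_mem ha (S.u_mem _ ?_)
    rw [map_mul, map_inv, hh, hk, mul_inv_cancel]

theorem mem_cl_left {q : Q} {a : A} {h : J} (hh : S.p h = q) : a ∈ S.cl q ↔ S.u h⁻¹ * a ∈ S.E := by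
  rw [S.mem_cl hh]
  constructor
  · intro ha
    have h1 := S.conj' h ha
    rwa [mul_assoc, mul_assoc, S.inv_u, mul_one] at h1
  · intro ha
    have h1 := S.conj h _ ha
    rwa [← mul_assoc, S.u_inv, one_mul] at h1

theorem u_mem_cl (h : J) : S.u h ∈ S.cl (S.p h) := by
  rw [S.mem_cl rfl, S.u_inv]
  exact S.E.one_mem

theorem mem_cl_one {a : A} : a ∈ S.cl 1 ↔ a ∈ S.E := by
  rw [S.mem_cl (map_one S.p), inv_one, map_one, mul_one]

theorem one_mem_cl : (1 : A) ∈ S.cl 1 := S.mem_cl_one.2 S.E.one_mem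

theorem mul_mem_cl {q r : Q} {a b : A} (ha : a ∈ S.cl q) (hb : b ∈ S.cl r) : a * b ∈ S.cl (q * r) := by
  obtain ⟨h, hh⟩ := S.surj q
  obtain ⟨k, hk⟩ := S.surj r
  have h1 : S.p (h * k) = q * r := by rw [map_mul, hh, hk]
  rw [S.mem_cl h1]
  have h2 : a * b * S.u (h * k)⁻¹ = a * S.u h⁻¹ * (S.u h * (b * S.u k⁻¹) * S.u h⁻¹) := by
    rw [mul_inv_rev, map_mul]
    simp only [← mul_assoc]
    rw [mul_assoc a (S.u h⁻¹) (S.u h), S.inv_u, mul_one]
  rw [h2]
  exact S.E.mul_mem (ha h hh) (S.conj h _ (hb k hk))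

/-- the elements of degree `q` which are not zero are units -/
theorem inv_cl {q : Q} {a : A} (ha : a ∈ S.cl q) (h0 : a ≠ 0) : ∃ b ∈ S.cl q⁻¹, a * b = 1 ∧ b * a = 1 := by
  obtain ⟨h, hh⟩ := S.surj q
  have h1 : a * S.u h⁻¹ ≠ 0 := by
    intro h2
    apply h0
    have h3 := congrArg (fun x => x * S.u h) h2
    simp only [zero_mul] at h3
    rwa [mul_assoc, S.inv_u, mul_one] at h3
  obtain ⟨e, he, h2, h3⟩ := S.inv _ (ha h hh) h1
  refine ⟨S.u h⁻¹ * e, ?_, ?_, ?_⟩
  · have h4 : S.p h⁻¹ = q⁻¹ := by rw [map_inv, hh]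
    rw [S.mem_cl_left h4, inv_inv, ← mul_assoc, S.u_inv, one_mul]
    exact he
  · rw [← mul_assoc]
    exact h2
  · have h4 : a = a * S.u h⁻¹ * S.u h := by rw [mul_assoc, S.inv_u, mul_one]
    rw [h4, mul_assoc, ← mul_assoc e, h3, one_mul, S.inv_u]

/-- the inclusion of the group elements of the kernel -/
def jE : S.p.ker →* S.E where
  toFun n := ⟨S.u n, S.u_mem _ (MonoidHom.mem_ker.1 n.2)⟩
  map_one' := Subtype.ext (map_one S.u)
  map_mul' _ _ := Subtype.ext (map_mul S.u _ _)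

theorem coe_jE (n : S.p.ker) : (S.jE n : A) = S.u n := rfl

end Stp

end Pool.Agent.S13
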