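import Pool.Agent.S13.Stp

/-!
# Project S13: the Malcev-Neumann division ring of one step

`V = {v : Ser A Q | v q ∈ cl q}`, a division ring: the coefficients which are not zero are units.
-/

set_option autoImplicit false
set_option linter.unusedSectionVars false

open Pointwise Function

namespace Pool.Agent.S13.Stp

open Pool.Agent.S11 Pool.Agent.H58.MN

variable {A : Type} [Ring A] {J Q : Type} [Group J] [Group Q] [BO Q] (S : Stp A J Q)

/-- the series with coefficients in the homogeneous parts -/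
noncomputable def V : Subring (Ser A Q) where
  carrier := {v | ∀ q, v q ∈ S.cl q}
  zero_mem' := fun q => (S.cl q).zero_mem
  one_mem' := fun q => by
    by_cases h : q = 1
    · rw [h, Ser.one_def, Ser.single_self]
      exact S.one_mem_cl
    · rw [Ser.one_def, Ser.single_ne h]
      exact (S.cl q).zero_mem
  add_mem' := fun {v w} hv hw q => (S.cl q).add_mem (hv q) (hw q)
  neg_mem' := fun {v} hv q => (S.cl q).neg_mem (hv q)
  mul_mem' := fun {v w} hv hw q => by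
    change (v * w) q ∈ S.cl q
    rw [Ser.mul_apply]
    refine finsum_induction (fun t => t ∈ S.cl q) (S.cl q).zero_mem (fun _ _ => (S.cl q).add_mem) fun a => ?_
    have h := S.mul_mem_cl (hv a) (hw (a⁻¹ * q))
    rwa [mul_inv_cancel_left] at h

/-- the coefficients -/
def c (v : S.V) (q : Q) : A := (v : Ser A Q) q

/-- the support -/
def supp (v : S.V) : Set Q := {q | S.c v q ≠ 0}

theorem c_mem (v : S.V) (q : Q) : S.c v q ∈ S.cl q := v.2 q

theorem mem_supp {v : S.V} {q : Q} : q ∈ S.supp v ↔ S.c v q ≠ 0 := Iff.rfl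

theorem V_ext {v w : S.V} (h : ∀ q, S.c v q = S.c w q) : v = w := Subtype.ext (Ser.ext h)

theorem pwo (v : S.V) : (S.supp v).IsPWO := (v : Ser A Q).wo

@[simp] theorem c_zero (q : Q) : S.c (0 : S.V) q = 0 := rfl
@[simp] theorem c_add (v w : S.V) (q : Q) : S.c (v + w) q = S.c v q + S.c w q := rfl
@[simp] theorem c_neg (v : S.V) (q : Q) : S.c (-v) q = -S.c v q := rfl
@[simp] theorem c_sub (v w : S.V) (q : Q) : S.c (v - w) q = S.c v q - S.c w q := rfl
theorem c_mul (v w : S.V) (q : Q) : S.c (v * w) q = ∑ᶠ a, S.c v a * S.c w (a⁻¹ * q) := rfl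
theorem c_one_self : S.c (1 : S.V) 1 = 1 := Ser.single_self _ _
theorem c_one_ne {q : Q} (h : q ≠ 1) : S.c (1 : S.V) q = 0 := Ser.single_ne h _

theorem fin_mul (v w : S.V) (q : Q) : {a | S.c v a * S.c w (a⁻¹ * q) ≠ 0}.Finite :=
  Ser.fin_supp (v : Ser A Q) (w : Ser A Q) q

theorem supp_add (v w : S.V) : S.supp (v + w) ⊆ S.supp v ∪ S.supp w := Function.support_add (v : Ser A Q) (w : Ser A Q)

theorem supp_mul (v w : S.V) : S.supp (v * w) ⊆ S.supp v * S.supp w := Ser.support_mul (v : Ser A Q) (w : Ser A Q)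

/-- the homogeneous series -/
noncomputable def hg (q : Q) (a : S.cl q) : S.V :=
  ⟨Ser.single q (a : A), fun r => by
    by_cases h : r = q
    · subst h
      rw [Ser.single_self]
      exact a.2
    · rw [Ser.single_ne h]
      exact (S.cl r).zero_mem⟩

theorem c_hg_self (q : Q) (a : S.cl q) : S.c (S.hg q a) q = a := Ser.single_self _ _

theorem c_hg_ne {q r : Q} (h : r ≠ q) (a : S.cl q) : S.c (S.hg q a) r = 0 := Ser.single_ne h _

theorem c_hg_mul (q : Q) (a : S.cl q) (v : S.V) (r : Q) : S.c (S.hg q a * v) r = a * S.c v (q⁻¹ * r) :=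
  Ser.single_mul_apply q (a : A) (v : Ser A Q) r

theorem c_mul_hg (q : Q) (a : S.cl q) (v : S.V) (r : Q) : S.c (v * S.hg q a) r = S.c v (r * q⁻¹) * a :=
  Ser.mul_single_apply q (a : A) (v : Ser A Q) r

theorem hg_mul (q r : Q) (a : S.cl q) (b : S.cl r) :
    S.hg q a * S.hg r b = S.hg (q * r) ⟨(a : A) * b, S.mul_mem_cl a.2 b.2⟩ :=
  Subtype.ext (Ser.single_mul_single q r (a : A) (b : A))

/-- the group elements -/
noncomputable def hom : J →* S.V where
  toFun h := S.hg (S.p h) ⟨S.u h, S.u_mem_cl h⟩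
  map_one' := by
    apply Subtype.ext
    change Ser.single (S.p 1) (S.u 1) = (1 : Ser A Q)
    rw [map_one, map_one]
    rfl
  map_mul' h k := by
    apply Subtype.ext
    change Ser.single (S.p (h * k)) (S.u (h * k)) = Ser.single (S.p h) (S.u h) * Ser.single (S.p k) (S.u k)
    rw [Ser.single_mul_single, map_mul, map_mul]

theorem hom_eq (h : J) : S.hom h = S.hg (S.p h) ⟨S.u h, S.u_mem_cl h⟩ := rfl

theorem c_hom_mul (h : J) (v : S.V) (r : Q) : S.c (S.hom h * v) r = S.u h * S.c v ((S.p h)⁻¹ * r) :=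
  S.c_hg_mul _ _ v r

theorem c_mul_hom (h : J) (v : S.V) (r : Q) : S.c (v * S.hom h) r = S.c v (r * (S.p h)⁻¹) * S.u h :=
  S.c_mul_hg _ _ v r

/-- the coefficients of degree one -/
noncomputable def co : S.E →+* S.V where
  toFun e := S.hg 1 ⟨e, S.mem_cl_one.2 e.2⟩
  map_one' := rfl
  map_zero' := by
    apply Subtype.ext
    refine Ser.ext fun q => ?_
    change Ser.single 1 (0 : A) q = 0
    by_cases h : q = 1
    · rw [h, Ser.single_self]
    · rw [Ser.single_ne h]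
  map_add' e e' := Subtype.ext (Ser.single_add 1 (e : A) (e' : A))
  map_mul' e e' := by
    apply Subtype.ext
    change Ser.single 1 ((e : A) * e') = Ser.single 1 (e : A) * Ser.single 1 (e' : A)
    rw [Ser.single_mul_single, mul_one]

theorem co_eq (e : S.E) : S.co e = S.hg 1 ⟨e, S.mem_cl_one.2 e.2⟩ := rfl

theorem c_co_mul (e : S.E) (v : S.V) (r : Q) : S.c (S.co e * v) r = e * S.c v r := by
  rw [co_eq, c_hg_mul, inv_one, one_mul]

theorem c_mul_co (e : S.E) (v : S.V) (r : Q) : S.c (v * S.co e) r = S.c v r * e := by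
  rw [co_eq, c_mul_hg, inv_one, mul_one]

/-! ## Inverses -/

theorem pow_mem {ξ : Ser A Q} (h : ξ ∈ S.V) (hpos : ∀ x ∈ support ξ, 1 < x) : Ser.geom ξ hpos ∈ S.V := by
  intro q
  rw [Ser.geom_apply]
  exact finsum_induction (fun t => t ∈ S.cl q) (S.cl q).zero_mem (fun _ _ => (S.cl q).add_mem) fun k =>
    S.V.pow_mem h k q

theorem exists_min {v : S.V} (h : v ≠ 0) : ∃ q₀, S.c v q₀ ≠ 0 ∧ ∀ q, S.c v q ≠ 0 → q₀ ≤ q := by
  have h1 : (v : Ser A Q) ≠ 0 := fun h2 => h (Subtype.ext h2)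
  have h2 := Ser.ne_zero_iff.1 h1
  exact ⟨(v : Ser A Q).wo.isWF.min h2, (v : Ser A Q).wo.isWF.min_mem h2, fun q hq => (v : Ser A Q).wo.isWF.min_le h2 hq⟩

/-- the right inverse, with its support -/
theorem exists_rinv {v : S.V} {q₀ : Q} (h0 : S.c v q₀ ≠ 0) (hmin : ∀ q, S.c v q ≠ 0 → q₀ ≤ q) :
    ∃ w : S.V, v * w = 1 ∧
      S.supp w ⊆ (fun y => y * q₀⁻¹) '' (Submonoid.closure {y : Q | y ≠ 1 ∧ S.c v (q₀ * y) ≠ 0} : Set Q) := by
  obtain ⟨b, hb, h1, h2⟩ := S.inv_cl (S.c_mem v q₀) h0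
  let β : S.V := S.hg q₀⁻¹ ⟨b, hb⟩
  let ξ : S.V := 1 - β * v
  have hξ : ∀ y, S.c ξ y = S.c (1 : S.V) y - b * S.c v (q₀ * y) := by
    intro y
    change S.c (1 - β * v : S.V) y = _
    rw [c_sub, c_hg_mul, inv_inv]
  have hξ1 : ∀ y, S.c ξ y ≠ 0 → y ≠ 1 ∧ S.c v (q₀ * y) ≠ 0 := by
    intro y hy
    have hy1 : y ≠ 1 := by
      rintro rfl
      apply hy
      rw [hξ, mul_one, c_one_self, h2, sub_self]
    refine ⟨hy1, fun h3 => hy ?_⟩
    rw [hξ, h3, mul_zero, sub_zero, S.c_one_ne hy1]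
  have hpos : ∀ x ∈ support ((ξ : S.V) : Ser A Q), 1 < x := by
    intro y hy
    obtain ⟨h3, h4⟩ := hξ1 y hy
    have h5 := mul_le_l (hmin _ h4) q₀⁻¹
    rw [inv_mul_cancel, inv_mul_cancel_left] at h5
    exact lt_of_le_of_ne h5 (Ne.symm h3)
  let G : S.V := ⟨Ser.geom (ξ : Ser A Q) hpos, S.pow_mem ξ.2 hpos⟩
  have hG : (1 - ξ) * G = 1 := Subtype.ext (Ser.one_sub_mul_geom (ξ : Ser A Q) hpos)
  have hv : S.hg q₀ ⟨S.c v q₀, S.c_mem v q₀⟩ * (1 - ξ) = v := by
    change _ * (1 - (1 - β * v)) = v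
    rw [sub_sub_cancel, ← mul_assoc]
    refine S.V_ext fun q => ?_
    change S.c (S.hg q₀ _ * S.hg q₀⁻¹ _ * v) q = _
    rw [mul_assoc, c_hg_mul, c_hg_mul, inv_inv, mul_inv_cancel_left, ← mul_assoc, h1, one_mul]
  refine ⟨G * β, ?_, ?_⟩
  · have h3 : S.hg q₀ ⟨S.c v q₀, S.c_mem v q₀⟩ * β = 1 := by
      refine S.V_ext fun q => ?_
      change S.c (S.hg q₀ _ * S.hg q₀⁻¹ _) q = _
      rw [c_hg_mul]
      by_cases hq : q = 1
      · subst hq
        rw [mul_one, c_hg_self, c_one_self]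
        exact h1
      · rw [S.c_one_ne hq, c_hg_ne, mul_zero]
        intro h4
        exact hq (by rwa [mul_eq_left] at h4)
    calc v * (G * β) = S.hg q₀ ⟨S.c v q₀, S.c_mem v q₀⟩ * (1 - ξ) * (G * β) := by rw [hv]
      _ = S.hg q₀ ⟨S.c v q₀, S.c_mem v q₀⟩ * ((1 - ξ) * G) * β := by simp only [mul_assoc]
      _ = 1 := by rw [hG, mul_one, h3]
  · intro x hx
    have h3 : S.c (G * β) x = S.c G (x * q₀) * b := by
      change S.c (G * S.hg q₀⁻¹ ⟨b, hb⟩) x = _
      rw [c_mul_hg, inv_inv]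
    refine ⟨x * q₀, ?_, by simp⟩
    have h4 : (x * q₀) ∈ support (Ser.geom (ξ : Ser A Q) hpos) := by
      intro h5
      apply hx
      rw [h3]
      change Ser.geom (ξ : Ser A Q) hpos (x * q₀) * b = 0
      rw [h5, zero_mul]
    have h5 := Ser.support_geom (ξ : Ser A Q) hpos h4
    exact Submonoid.closure_mono (fun y hy => hξ1 y hy) h5

instance [Nontrivial A] : Nontrivial S.V := ⟨⟨0, 1, fun h => by
  have h1 := congrArg (fun v : S.V => S.c v 1) h
  simp only [c_zero, c_one_self] at h1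
  exact zero_ne_one h1⟩⟩

variable [Nontrivial A]

theorem isUnit_or (v : S.V) : IsUnit v ∨ v = 0 := by
  have key : ∀ v : S.V, v ≠ 0 → ∃ w : S.V, v * w = 1 := fun v hv => by
    obtain ⟨q₀, h0, h1⟩ := S.exists_min hv
    obtain ⟨w, hw, -⟩ := S.exists_rinv h0 h1
    exact ⟨w, hw⟩
  by_cases h : v = 0
  · exact Or.inr h
  · left
    obtain ⟨w, hw⟩ := key v h
    have hw0 : w ≠ 0 := by
      rintro rfl
      rw [mul_zero] at hw
      exact zero_ne_one hw
    obtain ⟨z, hz⟩ := key w hw0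
    have hzv : v = z := by
      calc v = v * (w * z) := by rw [hz, mul_one]
        _ = z := by rw [← mul_assoc, hw, one_mul]
    exact ⟨⟨v, w, hw, by rw [hzv]; exact hz⟩, rfl⟩

/-- **The division ring of the series.** -/
noncomputable instance instDiv : DivisionRing S.V := DivisionRing.ofIsUnitOrEqZero S.isUnit_or

/-- the support of the inverse -/
theorem supp_inv {v : S.V} {q₀ : Q} (h0 : S.c v q₀ ≠ 0) (hmin : ∀ q, S.c v q ≠ 0 → q₀ ≤ q) :
    S.supp (v⁻¹ : S.V) ⊆ (fun y => y * q₀⁻¹) '' (Submonoid.closure {y : Q | y ≠ 1 ∧ S.c v (q₀ * y) ≠ 0} : Set Q) := by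
  obtain ⟨w, hw, h1⟩ := S.exists_rinv h0 hmin
  rwa [← eq_inv_of_mul_eq_one_right hw]

end Pool.Agent.S13.Stp
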